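import Mathlib

set_option autoImplicit false

namespace Pool.Agent.Results.MP_2beb52_al.Gap

/-- `B` is a base of the action of `G` on `S`. -/
def IsBase (G : Type) {S : Type} [Group G] [MulAction G S] (B : Finset S) : Prop :=
  ∀ g : G, (∀ x ∈ B, g • x = x) → g = 1

/-- The base size set of `G`. -/
def baseSizes (G : Type) [Group G] : Set ℕ :=
  {b | ∃ (S : Type) (_ : Finite S) (_ : MulAction G S), FaithfulSMul G S ∧
    IsLeast {n | ∃ B : Finset S, IsBase G B ∧ B.card = n} b}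

@[ext] structure G where
  v : ZMod 5 → ZMod 2
  c : ZMod 5
  h : ∑ i, v i = 0

theorem sh (v : ZMod 5 → ZMod 2) (c : ZMod 5) : ∑ i, v (i + c) = ∑ i, v i :=
  Equiv.sum_comp (Equiv.addRight c) v

instance : Mul G := ⟨fun a b => ⟨fun i => a.v i + b.v (i + -a.c), a.c + b.c, by
  rw [Finset.sum_add_distrib, sh, a.h, b.h, add_zero]⟩⟩
instance : One G := ⟨⟨0, 0, by simp⟩⟩
instance : Inv G := ⟨fun a => ⟨fun i => -a.v (i + a.c), -a.c, by
  rw [Finset.sum_neg_distrib, sh, a.h, neg_zero]⟩⟩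

@[simp] theorem mul_v (a b : G) (i : ZMod 5) : (a * b).v i = a.v i + b.v (i + -a.c) := rfl
@[simp] theorem mul_c (a b : G) : (a * b).c = a.c + b.c := rfl
@[simp] theorem one_v : (1 : G).v = 0 := rfl
@[simp] theorem one_c : (1 : G).c = 0 := rfl
@[simp] theorem inv_v (a : G) (i : ZMod 5) : (a⁻¹).v i = -a.v (i + a.c) := rfl
@[simp] theorem inv_c (a : G) : (a⁻¹).c = -a.c := rfl

instance : Group G := Group.ofLeftAxioms
  (fun a b c => G.ext (funext fun i => by simp [add_assoc, add_comm (-b.c)])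
    (by simp [add_assoc]))
  (fun a => G.ext (funext fun i => by simp) (by simp))
  (fun a => G.ext (funext fun i => by simp [CharTwo.add_self_eq_zero]) (by simp))

instance : Finite G :=
  Finite.of_injective (fun g : G => (g.v, g.c)) fun _ _ h =>
    G.ext (congrArg Prod.fst h) (congrArg Prod.snd h)

def K : Subgroup G where
  carrier := {g | g.c = 0}
  one_mem' := rfl
  mul_mem' := fun {a b} ha hb => by
    change a.c + b.c = 0
    rw [show a.c = 0 from ha, show b.c = 0 from hb, add_zero]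
  inv_mem' := fun {a} ha => by
    change -a.c = 0
    rw [show a.c = 0 from ha, neg_zero]

theorem cardV : Fintype.card {v : ZMod 5 → ZMod 2 // ∑ i, v i = 0} = 16 := by decide +kernel

theorem cardK : Nat.card K = 16 := by
  rw [← cardV, ← Nat.card_eq_fintype_card]
  exact Nat.card_congr ⟨fun g => ⟨g.1.v, g.1.h⟩, fun v => ⟨⟨v.1, 0, v.2⟩, rfl⟩,
    fun g => Subtype.ext (G.ext rfl g.2.symm), fun _ => rfl⟩

theorem five : ∀ u w : ZMod 5 → ZMod 2, ∑ i, u i = 0 → ∑ i, w i = 0 → u ≠ 0 → w ≠ 0 →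
    5 ≤ ({0, u, fun i => u (i + 1), fun i => u i + u (i + 1), w, fun i => w (i + 2)} :
      Finset (ZMod 5 → ZMod 2)).card := by decide +kernel

theorem shift : ∀ c : ZMod 5, (∀ i : ZMod 5, (![1, 1, 0, 0, 0] : Fin 5 → ZMod 2) (i + c) +
    (![1, 1, 0, 0, 0] : Fin 5 → ZMod 2) i = 0) → c = 0 := by decide +kernel

theorem gen : ∀ c d : ZMod 5, c ≠ 0 → ∃ k : Fin 5, (k : ℕ) • c = d := by decide +kernel

theorem pow_c (g : G) (k : ℕ) : (g ^ k).c = k • g.c := by
  induction k with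
  | zero => simp
  | succ k ih => rw [pow_succ, mul_c, ih, succ_nsmul]

theorem conj (g u : G) (hu : u.c = 0) (i : ZMod 5) : (g⁻¹ * u * g).v i = u.v (i + g.c) := by
  simp only [mul_v, mul_c, inv_v, inv_c, hu, add_zero, neg_neg]
  ring

theorem step (H : Subgroup G) (h : ∀ g : G, ∃ u ∈ H, u ≠ 1 ∧ g⁻¹ * u * g ∈ H) (d : ZMod 5) :
    ∃ u ∈ H, u.c = 0 ∧ u.v ≠ 0 ∧ ∃ g : G, g.c = d ∧ g⁻¹ * u * g ∈ H := by
  have ne : ∀ u : G, u ≠ 1 → u.c = 0 → u.v ≠ 0 := fun u h1 h2 h3 => h1 (G.ext h3 h2)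
  by_cases hH : ∀ u ∈ H, u.c = 0
  · obtain ⟨u, hu, h1, h2⟩ := h ⟨0, d, by simp⟩
    exact ⟨u, hu, hH u hu, ne u h1 (hH u hu), _, rfl, h2⟩
  · push Not at hH
    obtain ⟨r, hr, hc⟩ := hH
    obtain ⟨k, hk⟩ := gen r.c d hc
    obtain ⟨u, hu, h1, h2⟩ : ∃ u ∈ H, u.c = 0 ∧ u.v ≠ 0 := by
      obtain ⟨u, hu, h1, h2⟩ := h ⟨![1, 1, 0, 0, 0], 0, by decide⟩
      by_cases hc : u.c = 0
      · exact ⟨u, hu, hc, ne u h1 hc⟩
      · refine ⟨_, H.mul_mem (H.inv_mem hu) h2, by simp, fun h0 => hc (shift _ fun i => ?_)⟩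
        have := congrFun h0 i
        simp only [mul_v, inv_v, mul_c, inv_c, neg_zero, add_zero, neg_neg, zero_add,
          add_neg_cancel_right, Pi.zero_apply, CharTwo.neg_eq] at this
        linear_combination this - CharTwo.add_self_eq_zero (u.v (i + u.c))
    exact ⟨u, hu, h1, h2, r ^ (k : ℕ), by rw [pow_c, hk],
      H.mul_mem (H.mul_mem (H.inv_mem (H.pow_mem hr _)) hu) (H.pow_mem hr _)⟩

theorem big (H : Subgroup G) (h : ∀ g : G, ∃ u ∈ H, u ≠ 1 ∧ g⁻¹ * u * g ∈ H) :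
    H.relIndex K ≤ 2 := by
  classical
  obtain ⟨u, hu, u0, u1, g, g1, hg⟩ := step H h 1
  obtain ⟨w, hw, w0, w1, f, f1, hf⟩ := step H h 2
  have := Fintype.ofFinite (H.subgroupOf K)
  have h5 : 5 ≤ Nat.card (H.subgroupOf K) := by
    rw [Nat.card_eq_fintype_card]
    refine (five u.v w.v u.h w.h u1 w1).trans ((Finset.card_le_card ?_).trans
      (Finset.card_image_le (s := Finset.univ) (f := fun z : H.subgroupOf K => z.1.1.v)))
    have m : ∀ z ∈ H, z.c = 0 → z.v ∈ Finset.univ.image fun z : H.subgroupOf K => z.1.1.v :=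
      fun z h1 h2 => Finset.mem_image.2 ⟨⟨⟨z, h2⟩, h1⟩, Finset.mem_univ _, rfl⟩
    intro z hz
    simp only [Finset.mem_insert, Finset.mem_singleton] at hz
    rcases hz with rfl | rfl | rfl | rfl | rfl | rfl
    · exact m 1 H.one_mem rfl
    · exact m u hu u0
    · convert m _ hg (by simp [u0]) using 2
      rw [conj _ _ u0, g1]
    · convert m _ (H.mul_mem hu hg) (by simp [u0]) using 2
      rw [mul_v, conj _ _ u0, g1, u0, neg_zero, add_zero]
    · exact m w hw w0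
    · convert m _ hf (by simp [w0]) using 2
      rw [conj _ _ w0, f1]
  have h16 := (H.subgroupOf K).card_mul_index
  rw [cardK] at h16
  change (H.subgroupOf K).index ≤ 2
  generalize (H.subgroupOf K).index = i at h16
  have : i ≤ 3 := by nlinarith
  interval_cases i <;> omega

theorem main {S : Type} [MulAction G S] (h : ∀ x y : S, ∃ g : G, g ≠ 1 ∧ g • x = x ∧ g • y = y)
    (B : Finset S) (hB : IsBase G B) : 4 ≤ B.card := by
  have h1 : (⨅ x : B, MulAction.stabilizer G x.1) = ⊥ :=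
    eq_bot_iff.2 fun g hg => hB g fun x hx => Subgroup.mem_iInf.1 hg ⟨x, hx⟩
  have h2 := Subgroup.relIndex_iInf_le (L := K) fun x : B => MulAction.stabilizer G x.1
  rw [h1, Subgroup.relIndex_bot_left, cardK] at h2
  have h3 := h2.trans (Finset.prod_le_pow_card _ _ 2 fun x _ => big _ fun g => by
    obtain ⟨u, hu, h1, h2⟩ := h x.1 (g • x.1)
    exact ⟨u, h1, hu, by simp [mul_smul, h2]⟩)
  rw [Finset.card_univ, Fintype.card_coe] at h3
  exact (Nat.pow_le_pow_iff_right (by norm_num : 1 < 2)).1 h3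

instance : MulAction G (ZMod 5 × ZMod 2) where
  smul g x := (x.1 + g.c, x.2 + g.v (x.1 + g.c))
  one_smul x := by
    change (_, _) = x
    simp
  mul_smul a b x := by
    change (_, _) = (x.1 + b.c + a.c, x.2 + b.v (x.1 + b.c) + a.v (x.1 + b.c + a.c))
    simp only [mul_c, mul_v, Prod.mk.injEq]
    rw [show x.1 + (a.c + b.c) = x.1 + b.c + a.c by ring, add_neg_cancel_right]
    exact ⟨rfl, by ring⟩

theorem smul_def (g : G) (x : ZMod 5 × ZMod 2) :
    g • x = (x.1 + g.c, x.2 + g.v (x.1 + g.c)) := rfl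

theorem two : ∀ i j : ZMod 5, ∃ v : ZMod 5 → ZMod 2, ∑ i, v i = 0 ∧ v ≠ 0 ∧ v i = 0 ∧ v j = 0 := by
  decide +kernel

theorem four : ∀ v : ZMod 5 → ZMod 2, ∑ i, v i = 0 → v 0 = 0 → v 1 = 0 → v 2 = 0 → v 3 = 0 →
    v = 0 := by decide +kernel

theorem base4 : IsBase G ({(0, 0), (1, 0), (2, 0), (3, 0)} : Finset (ZMod 5 × ZMod 2)) := by
  intro g hg
  have h0 := hg (0, 0) (by simp)
  have hc : g.c = 0 := by simpa [smul_def] using congrArg Prod.fst h0
  refine G.ext (four _ g.h ?_ ?_ ?_ ?_) hc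
  · simpa [smul_def, hc] using h0
  · simpa [smul_def, hc] using hg (1, 0) (by simp)
  · simpa [smul_def, hc] using hg (2, 0) (by simp)
  · simpa [smul_def, hc] using hg (3, 0) (by simp)

theorem result : ∃ (Γ : Type) (_ : Group Γ), Finite Γ ∧ Nontrivial Γ ∧
    4 ∈ baseSizes Γ ∧ 3 ∉ baseSizes Γ ∧ ¬ ∃ k, baseSizes Γ = Set.Icc 1 k := by
  classical
  have h4 : 4 ∈ baseSizes G := by
    refine ⟨ZMod 5 × ZMod 2, inferInstance, inferInstance, ⟨fun {a b} h => ?_⟩,
      ⟨_, base4, by decide⟩, ?_⟩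
    · exact (inv_mul_eq_one.1 (base4 (b⁻¹ * a) fun x _ => by simp [mul_smul, h])).symm
    · rintro _ ⟨B, hB, rfl⟩
      refine main (fun x y => ?_) B hB
      obtain ⟨v, h1, h2, h3, h4⟩ := two x.1 y.1
      exact ⟨⟨v, 0, h1⟩, fun h => h2 (congrArg G.v h), by simp [smul_def, h3],
        by simp [smul_def, h4]⟩
  have h3 : 3 ∉ baseSizes G := by
    rintro ⟨S, -, _, -, ⟨B, hB, h3⟩, hl⟩
    have := main (S := S) (fun x y => by
      by_contra hc
      push Not at hc
      have := hl ⟨{x, y}, fun g hg => by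
        by_contra h
        exact hc g h (hg x (by simp)) (hg y (by simp)), rfl⟩
      have := Finset.card_le_two (a := x) (b := y)
      omega) B hB
    omega
  refine ⟨G, inferInstance, inferInstance, ⟨⟨0, 1, by simp⟩, 1, fun h => ?_⟩, h4, h3, ?_⟩
  · exact absurd (congrArg G.c h) (by decide)
  · rintro ⟨k, hk⟩
    rw [hk, Set.mem_Icc] at h3 h4
    omega

end Pool.Agent.Results.MP_2beb52_al.Gap
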